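import Pool.Agent.Helper53.LCY.Dom4
import Pool.Agent.Helper26.LC.FamStmts

set_option autoImplicit false

/-!
Row DOMF of MP_f7e214_ag, part 5: the theorem.
-/

namespace H53

open MvPolynomial Pool.Agent.Helper48.KM

noncomputable section

/-- Row DOMF. -/
theorem domf : LCY.ST_DOMF := by
  intro V G b hV hne hG htr hdom
  obtain ⟨n, J, F, h1, h2⟩ := hdom
  have H : Hyp J F V G b := ⟨hV, hne, hG, htr, h1, h2⟩
  obtain ⟨p, hp, hmax⟩ := WellFounded.has_min
    (r := ((· > ·) : Ideal (MvPolynomial (Fin n) ℂ) → _ → Prop)) wellFounded_gt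
    {p | Good J F G p} H.exists_good
  have hpr := hp.1
  set D := MvPolynomial (Fin n) ℂ ⧸ p with hD
  have htrD := H.trdeg_eq hp (fun q hq hpq => hmax q hq hpq)
  let ι : D →ₐ[ℂ] FractionRing D := IsScalarTower.toAlgHom ℂ D (FractionRing D)
  have hι : Function.Injective ι := IsFractionRing.injective D (FractionRing D)
  have hlm : Function.Injective (lmap ι) := lmap_injective ι hι
  have hg : ∀ h, aeval (fun i => lmap ι (phi F p (X i))) h = lmap ι (phi F p h) := by
    intro h
    have h5 : (aeval (fun i => lmap ι (phi F p (X i))) :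
        MvPolynomial (Fin 3) ℂ →ₐ[ℂ] LaurentPolynomial (FractionRing D)) =
        (lmap ι).comp (phi F p) := by
      apply MvPolynomial.algHom_ext
      intro i
      rw [aeval_X, AlgHom.comp_apply]
    exact congrArg (fun φ => φ h) h5
  refine ⟨FractionRing D, inferInstance, inferInstance, fun i => lmap ι (phi F p (X i)),
    ?_, ?_, ?_, ?_, ?_⟩
  · classical
    refine ⟨Finset.univ.image fun j => ι (Ideal.Quotient.mk p (X j)), ?_⟩
    rw [eq_top_iff]
    intro x _
    have hmem : ∀ d : D, ι d ∈ IntermediateField.adjoin ℂ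
        ((Finset.univ.image fun j => ι (Ideal.Quotient.mk p (X j)) : Finset (FractionRing D)) :
          Set (FractionRing D)) := by
      intro d
      obtain ⟨P, rfl⟩ := Ideal.Quotient.mk_surjective d
      induction P using MvPolynomial.induction_on with
      | C c =>
        have h6 : ι (Ideal.Quotient.mk p (C c)) = algebraMap ℂ (FractionRing D) c :=
          ι.commutes c
        rw [h6]
        exact (IntermediateField.adjoin ℂ _).algebraMap_mem c
      | add P Q hP hQ => rw [map_add, map_add]; exact add_mem hP hQ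
      | mul_X P j hP =>
        rw [map_mul, map_mul]
        refine mul_mem hP (IntermediateField.subset_adjoin _ _ ?_)
        simp
    obtain ⟨y, z, hz, rfl⟩ := IsFractionRing.div_surjective (A := D) x
    exact div_mem (hmem y) (hmem z)
  · have h3 := trdeg_add_eq ℂ D (A := FractionRing D)
    have h2 : Algebra.IsAlgebraic D (FractionRing D) :=
      IsLocalization.isAlgebraic (FractionRing D) (nonZeroDivisors D)
    rw [← h3, htrD, trdeg_eq_zero, add_zero]
  · intro h
    rw [hg, map_eq_zero_iff _ hlm]
    exact H.phi_iff hp h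
  · obtain ⟨α, hα⟩ := H.bezout hp
    refine ⟨fun i => lmap ι (α i), ?_⟩
    rw [← map_one (lmap ι), ← hα, map_sum]
    refine Finset.sum_congr rfl fun i _ => ?_
    rw [hg, map_mul]
  · obtain ⟨i, k, hk, hik⟩ := H.nonconst hp
    refine ⟨i, fun c hc => hik ?_⟩
    apply hι
    have hc' : lmap ι (phi F p (X i)) = LaurentPolynomial.C c := hc
    rw [← coeff_lmap, hc', LaurentPolynomial.C_apply, if_neg hk, map_zero]

end

end H53
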