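import Mathlib
import Pool.Agent.Helper48.KM.Defs
import Pool.Agent.Helper96.LCY.Lift

set_option autoImplicit false

/-!
Row DOMF of MP_f7e214_ag: from a family over an algebraic set to a family over a field. Part 1:
evaluation, coefficients, the ideal of the surface.
-/

namespace H53

open MvPolynomial

noncomputable section

/-- change of the coefficients -/
def lmap {A B : Type} [CommRing A] [Algebra ℂ A] [CommRing B] [Algebra ℂ B] (f : A →ₐ[ℂ] B) :
    LaurentPolynomial A →ₐ[ℂ] LaurentPolynomial B :=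
  AddMonoidAlgebra.mapAlgHom ℤ f

theorem coeff_lmap {A B : Type} [CommRing A] [Algebra ℂ A] [CommRing B] [Algebra ℂ B]
    (f : A →ₐ[ℂ] B) (P : LaurentPolynomial A) (k : ℤ) :
    (lmap f P).coeff k = f (P.coeff k) :=
  AddMonoidAlgebra.coeff_mapAlgHom f P k

theorem lmap_C {A B : Type} [CommRing A] [Algebra ℂ A] [CommRing B] [Algebra ℂ B]
    (f : A →ₐ[ℂ] B) (a : A) :
    lmap f (LaurentPolynomial.C a) = LaurentPolynomial.C (f a) :=
  AddMonoidAlgebra.mapAlgHom_single f 0 a

theorem lmap_T {A B : Type} [CommRing A] [Algebra ℂ A] [CommRing B] [Algebra ℂ B]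
    (f : A →ₐ[ℂ] B) (k : ℤ) :
    lmap f (LaurentPolynomial.T k) = LaurentPolynomial.T k := by
  have h := AddMonoidAlgebra.mapAlgHom_single (M := ℤ) f k 1
  rw [map_one] at h
  exact h

theorem lmap_injective {A B : Type} [CommRing A] [Algebra ℂ A] [CommRing B] [Algebra ℂ B]
    (f : A →ₐ[ℂ] B) (hf : Function.Injective f) : Function.Injective (lmap f) := by
  intro P Q h
  apply LaurentPolynomial.ext
  intro k
  apply hf
  rw [← coeff_lmap, ← coeff_lmap, h]

/-- A Laurent polynomial that vanishes at all units is zero. -/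
theorem coeff_eq_zero {A : Type} [CommRing A] (f : A →+* ℂ) (P : LaurentPolynomial A)
    (h : ∀ s : ℂˣ, LaurentPolynomial.eval₂ f s P = 0) (k : ℤ) : f (P.coeff k) = 0 := by
  obtain ⟨n, Q, hQ⟩ := P.exists_T_pow
  have h1 : ∀ s : ℂˣ, Polynomial.eval (s : ℂ) (Q.map f) = 0 := by
    intro s
    have h2 := LaurentPolynomial.eval₂_toLaurent f s Q
    rw [hQ, map_mul, h s, zero_mul] at h2
    rw [Polynomial.eval_map]
    exact h2.symm
  have h3 : Q.map f = 0 := by
    apply Polynomial.eq_zero_of_infinite_isRoot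
    refine Set.Infinite.mono (s := {0}ᶜ) ?_ (Set.Finite.infinite_compl (Set.finite_singleton 0))
    intro x hx
    have hx0 : x ≠ 0 := hx
    exact h1 (Units.mk0 x hx0)
  have h4 : ∀ R : Polynomial A, AddMonoidAlgebra.mapRingHom ℤ f (Polynomial.toLaurent R) =
      Polynomial.toLaurent (R.map f) := by
    intro R
    induction R using Polynomial.induction_on' with
    | add p q hp hq => rw [map_add, map_add, hp, hq, Polynomial.map_add, map_add]
    | monomial m a =>
      rw [← Polynomial.C_mul_X_pow_eq_monomial, Polynomial.toLaurent_C_mul_X_pow,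
        Polynomial.map_mul, Polynomial.map_C, Polynomial.map_pow, Polynomial.map_X,
        Polynomial.toLaurent_C_mul_X_pow, ← LaurentPolynomial.single_eq_C_mul_T,
        ← LaurentPolynomial.single_eq_C_mul_T, AddMonoidAlgebra.coe_mapRingHom,
        AddMonoidAlgebra.map_single]
      rfl
  have h5 : AddMonoidAlgebra.mapRingHom ℤ f P * AddMonoidAlgebra.mapRingHom ℤ f
      (LaurentPolynomial.T n) = 0 := by
    rw [← map_mul, ← hQ, h4, h3, map_zero]
  have h6 : IsUnit (AddMonoidAlgebra.mapRingHom ℤ f (LaurentPolynomial.T n)) :=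
    (LaurentPolynomial.isUnit_T _).map _
  have h7 : AddMonoidAlgebra.mapRingHom ℤ f P = 0 := (h6.mul_left_eq_zero).1 h5
  rw [← AddMonoidAlgebra.coeff_mapRingHom, h7]
  rfl

/-- The converse. -/
theorem eval₂_eq_zero {A : Type} [CommRing A] (f : A →+* ℂ) (P : LaurentPolynomial A)
    (h : ∀ k, f (P.coeff k) = 0) (s : ℂˣ) : LaurentPolynomial.eval₂ f s P = 0 := by
  have h1 : AddMonoidAlgebra.mapRingHom ℤ f P = 0 := by
    apply LaurentPolynomial.ext
    intro k
    rw [AddMonoidAlgebra.coeff_mapRingHom, h k]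
    rfl
  have h2 : ∀ R : LaurentPolynomial A, LaurentPolynomial.eval₂ f s R =
      LaurentPolynomial.eval₂ (RingHom.id ℂ) s (AddMonoidAlgebra.mapRingHom ℤ f R) := by
    intro R
    induction R using LaurentPolynomial.induction_on' with
    | add p q hp hq => rw [map_add, hp, hq, map_add, map_add]
    | C_mul_T m a =>
      rw [LaurentPolynomial.eval₂_C_mul_T, ← LaurentPolynomial.single_eq_C_mul_T,
        AddMonoidAlgebra.coe_mapRingHom, AddMonoidAlgebra.map_single,
        LaurentPolynomial.single_eq_C_mul_T, LaurentPolynomial.eval₂_C_mul_T]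
      rfl
  rw [h2, h1, map_zero]

/-- the equation of the family -/
abbrev Phi {n : ℕ} (F : Fin 3 → LaurentPolynomial (MvPolynomial (Fin n) ℂ)) :
    MvPolynomial (Fin 3) ℂ →ₐ[ℂ] LaurentPolynomial (MvPolynomial (Fin n) ℂ) :=
  aeval F

/-- evaluation of a Laurent polynomial over `A` at a point of `A` and a unit -/
def evl {A : Type} [CommRing A] [Algebra ℂ A] (f : A →ₐ[ℂ] ℂ) (s : ℂˣ) :
    LaurentPolynomial A →ₐ[ℂ] ℂ :=
  { LaurentPolynomial.eval₂ (f : A →+* ℂ) s with
    commutes' := by
      intro c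
      have h : (algebraMap ℂ (LaurentPolynomial A)) c =
          LaurentPolynomial.C (algebraMap ℂ A c) := rfl
      change LaurentPolynomial.eval₂ (f : A →+* ℂ) s _ = _
      rw [h, LaurentPolynomial.eval₂_C]
      exact f.commutes c }

theorem evl_apply {A : Type} [CommRing A] [Algebra ℂ A] (f : A →ₐ[ℂ] ℂ) (s : ℂˣ)
    (P : LaurentPolynomial A) : evl f s P = LaurentPolynomial.eval₂ (f : A →+* ℂ) s P := rfl

theorem famValue_eq {n : ℕ} (F : Fin 3 → LaurentPolynomial (MvPolynomial (Fin n) ℂ))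
    (t : Fin n → ℂ) (s : ℂˣ) (i : Fin 3) :
    Pool.Agent.Helper48.KM.famValue F t s i = evl (aeval t) s (F i) := by
  rw [evl_apply]
  rfl

theorem eval_famValue {n : ℕ} (F : Fin 3 → LaurentPolynomial (MvPolynomial (Fin n) ℂ))
    (t : Fin n → ℂ) (s : ℂˣ) (h : MvPolynomial (Fin 3) ℂ) :
    eval (Pool.Agent.Helper48.KM.famValue F t s) h = evl (aeval t) s (aeval F h) := by
  have h1 : (aeval (Pool.Agent.Helper48.KM.famValue F t s) : MvPolynomial (Fin 3) ℂ →ₐ[ℂ] ℂ) =
      (evl (aeval t) s).comp (aeval F) := by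
    apply MvPolynomial.algHom_ext
    intro i
    rw [aeval_X, AlgHom.comp_apply, aeval_X, famValue_eq]
  have h2 := congrArg (fun φ => φ h) h1
  exact h2

/-- every point of the algebra of Laurent polynomials is an evaluation -/
theorem exists_evl {A : Type} [CommRing A] [Algebra ℂ A] (χ : LaurentPolynomial A →ₐ[ℂ] ℂ) :
    ∃ (f : A →ₐ[ℂ] ℂ) (s : ℂˣ), χ = evl f s := by
  let f : A →ₐ[ℂ] ℂ := χ.comp
    { (LaurentPolynomial.C : A →+* LaurentPolynomial A) with commutes' := fun _ => rfl }
  have hu : IsUnit (χ (LaurentPolynomial.T 1)) := (LaurentPolynomial.isUnit_T 1).map _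
  refine ⟨f, hu.unit, ?_⟩
  apply AlgHom.ext
  intro P
  have hT : ∀ k : ℤ, χ (LaurentPolynomial.T k) = ((hu.unit ^ k : ℂˣ) : ℂ) := by
    intro k
    let g : Multiplicative ℤ →* ℂˣ := Units.liftRight
      ((χ : LaurentPolynomial A →* ℂ).comp (AddMonoidAlgebra.of A ℤ))
      (fun m => ((LaurentPolynomial.isUnit_T (R := A) (Multiplicative.toAdd m)).map χ).unit)
      (fun m => by rfl)
    have hg : ∀ m : ℤ, ((g (Multiplicative.ofAdd m) : ℂˣ) : ℂ) = χ (LaurentPolynomial.T m) :=
      fun m => rfl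
    rw [← hg k]
    have h1 : g (Multiplicative.ofAdd k) = g (Multiplicative.ofAdd 1) ^ k := by
      rw [← map_zpow]
      congr 1
      rw [← ofAdd_zsmul, smul_eq_mul, mul_one]
    rw [h1]
    have h2 : g (Multiplicative.ofAdd 1) = hu.unit := Units.ext (hg 1)
    rw [h2]
  induction P using LaurentPolynomial.induction_on' with
  | add p q hp hq => rw [map_add, hp, hq, map_add]
  | C_mul_T m a =>
    rw [map_mul, hT m, evl_apply, LaurentPolynomial.eval₂_C_mul_T]
    rfl

end

end H53
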