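import Pool.Agent.Helper53.LCY.Dom1

set_option autoImplicit false

/-!
Row DOMF of MP_f7e214_ag, part 2: the ideals over which the family is dominating.
-/

namespace H53

open MvPolynomial Pool.Agent.Helper48.KM

noncomputable section

/-- the hypotheses of DOMF -/
structure Hyp {n : ℕ} (J : Set (MvPolynomial (Fin n) ℂ))
    (F : Fin 3 → LaurentPolynomial (MvPolynomial (Fin n) ℂ)) (V : Set (Fin 3 → ℂ))
    (G : MvPolynomial (Fin 3) ℂ) (b : Fin 2 → MvPolynomial (Fin 3) ℂ) : Prop where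
  hV : ∀ P, P ∈ V ↔ eval P G = 0 ∧ ∃ i, eval P (b i) ≠ 0
  hne : V.Nonempty
  hG : (Ideal.span {G}).IsPrime
  htr : Algebra.trdeg ℂ (MvPolynomial (Fin 3) ℂ ⧸ Ideal.span {G}) = 2
  h1 : ∀ t : Fin n → ℂ, (∀ p ∈ J, eval t p = 0) →
      (∀ s : ℂˣ, famValue F t s ∈ V) ∧ ∃ s s' : ℂˣ, famValue F t s ≠ famValue F t s'
  h2 : ∀ g : MvPolynomial (Fin 3) ℂ,
      (∀ t : Fin n → ℂ, (∀ p ∈ J, eval t p = 0) → ∀ s : ℂˣ, eval (famValue F t s) g = 0) →
      ∀ P ∈ V, eval P g = 0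

variable {n : ℕ} {J : Set (MvPolynomial (Fin n) ℂ)}
  {F : Fin 3 → LaurentPolynomial (MvPolynomial (Fin n) ℂ)} {V : Set (Fin 3 → ℂ)}
  {G : MvPolynomial (Fin 3) ℂ} {b : Fin 2 → MvPolynomial (Fin 3) ℂ}

/-- The polynomials that vanish on `V` are the multiples of `G`. -/
theorem Hyp.dvd (H : Hyp J F V G b) (h : MvPolynomial (Fin 3) ℂ)
    (hh : ∀ P ∈ V, eval P h = 0) : G ∣ h := by
  have hpr := H.hG
  have key : ∀ i, h * b i ∈ Ideal.span {G} := by
    intro i
    have h1 := vanishingIdeal_zeroLocus_eq_radical (k := ℂ) (K := ℂ) (Ideal.span {G})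
    rw [hpr.radical] at h1
    rw [← h1, mem_vanishingIdeal_iff]
    intro x hx
    rw [mem_zeroLocus_iff] at hx
    have hx1 : eval x G = 0 := by
      have := hx G (Ideal.subset_span rfl)
      simpa [aeval_eq_eval] using this
    have goal : eval x (h * b i) = 0 := by
      rw [map_mul]
      by_cases hb : eval x (b i) = 0
      · rw [hb, mul_zero]
      · rw [hh x ((H.hV x).2 ⟨hx1, i, hb⟩), zero_mul]
    simpa [aeval_eq_eval] using goal
  by_contra hc
  have hb : ∀ i, G ∣ b i := by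
    intro i
    rcases hpr.mem_or_mem (key i) with h3 | h3
    · exact absurd (Ideal.mem_span_singleton.1 h3) hc
    · exact Ideal.mem_span_singleton.1 h3
  obtain ⟨P, hP⟩ := H.hne
  obtain ⟨hPG, i, hPi⟩ := (H.hV P).1 hP
  obtain ⟨c, hc'⟩ := hb i
  apply hPi
  rw [hc', map_mul, hPG, zero_mul]

theorem Hyp.dvd_prod (H : Hyp J F V G b) {ι : Type*} (s : Finset ι)
    (h : ι → MvPolynomial (Fin 3) ℂ) (hd : G ∣ ∏ i ∈ s, h i) : ∃ i ∈ s, G ∣ h i := by
  have hpr := H.hG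
  have h1 : ∏ i ∈ s, h i ∈ Ideal.span {G} := Ideal.mem_span_singleton.2 hd
  obtain ⟨i, hi, h2⟩ := (hpr.prod_mem_iff).1 h1
  exact ⟨i, hi, Ideal.mem_span_singleton.1 h2⟩

/-- The family over the closed subset given by the ideal `p`. -/
def phi (F : Fin 3 → LaurentPolynomial (MvPolynomial (Fin n) ℂ))
    (p : Ideal (MvPolynomial (Fin n) ℂ)) :
    MvPolynomial (Fin 3) ℂ →ₐ[ℂ] LaurentPolynomial (MvPolynomial (Fin n) ℂ ⧸ p) :=
  (lmap (Ideal.Quotient.mkₐ ℂ p)).comp (aeval F)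

/-- the point of affine space given by a point of the quotient ring -/
def pt {p : Ideal (MvPolynomial (Fin n) ℂ)}
    (f : (MvPolynomial (Fin n) ℂ ⧸ p) →ₐ[ℂ] ℂ) : Fin n → ℂ :=
  fun j => f (Ideal.Quotient.mk p (X j))

theorem aeval_pt {p : Ideal (MvPolynomial (Fin n) ℂ)}
    (f : (MvPolynomial (Fin n) ℂ ⧸ p) →ₐ[ℂ] ℂ) (a : MvPolynomial (Fin n) ℂ) :
    aeval (pt f) a = f (Ideal.Quotient.mk p a) := by
  have h1 : (aeval (pt f) : MvPolynomial (Fin n) ℂ →ₐ[ℂ] ℂ) =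
      f.comp (Ideal.Quotient.mkₐ ℂ p) := by
    apply MvPolynomial.algHom_ext
    intro i
    rw [aeval_X]
    rfl
  rw [h1]
  rfl

theorem pt_mem {p : Ideal (MvPolynomial (Fin n) ℂ)}
    (f : (MvPolynomial (Fin n) ℂ ⧸ p) →ₐ[ℂ] ℂ) (a : MvPolynomial (Fin n) ℂ) (ha : a ∈ p) :
    eval (pt f) a = 0 := by
  have h1 := aeval_pt f a
  rw [Ideal.Quotient.eq_zero_iff_mem.2 ha, map_zero] at h1
  exact h1

theorem evl_lmap {A B : Type} [CommRing A] [Algebra ℂ A] [CommRing B] [Algebra ℂ B]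
    (g : A →ₐ[ℂ] B) (f : B →ₐ[ℂ] ℂ) (s : ℂˣ) (P : LaurentPolynomial A) :
    evl f s (lmap g P) = evl (f.comp g) s P := by
  induction P using LaurentPolynomial.induction_on' with
  | add p q hp hq => rw [map_add, map_add, hp, hq, map_add]
  | C_mul_T m a =>
    rw [map_mul, lmap_C, lmap_T, evl_apply, evl_apply, LaurentPolynomial.eval₂_C_mul_T,
      LaurentPolynomial.eval₂_C_mul_T]
    rfl

theorem evl_phi {p : Ideal (MvPolynomial (Fin n) ℂ)}
    (f : (MvPolynomial (Fin n) ℂ ⧸ p) →ₐ[ℂ] ℂ) (s : ℂˣ) (h : MvPolynomial (Fin 3) ℂ) :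
    evl f s (phi F p h) = eval (famValue F (pt f) s) h := by
  rw [phi, AlgHom.comp_apply, evl_lmap, eval_famValue]
  congr 2
  apply AlgHom.ext
  intro a
  rw [aeval_pt]
  rfl

theorem coeff_phi (p : Ideal (MvPolynomial (Fin n) ℂ)) (h : MvPolynomial (Fin 3) ℂ) (k : ℤ) :
    (phi F p h).coeff k = Ideal.Quotient.mk p ((aeval F h).coeff k) :=
  coeff_lmap _ _ _

theorem phi_eq_zero_iff (p : Ideal (MvPolynomial (Fin n) ℂ)) (h : MvPolynomial (Fin 3) ℂ) :
    phi F p h = 0 ↔ ∀ k, (aeval F h).coeff k ∈ p := by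
  constructor
  · intro h0 k
    rw [← Ideal.Quotient.eq_zero_iff_mem, ← coeff_phi, h0]
    rfl
  · intro h0
    apply LaurentPolynomial.ext
    intro k
    rw [coeff_phi, Ideal.Quotient.eq_zero_iff_mem.2 (h0 k)]
    rfl

/-- If `phi h = 0` then `h` vanishes at the members of the family over the points of `p`. -/
theorem eval_of_phi {p : Ideal (MvPolynomial (Fin n) ℂ)} {h : MvPolynomial (Fin 3) ℂ}
    (h0 : phi F p h = 0) (t : Fin n → ℂ) (ht : ∀ a ∈ p, eval t a = 0) (s : ℂˣ) :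
    eval (famValue F t s) h = 0 := by
  rw [eval_famValue, evl_apply]
  exact eval₂_eq_zero _ _ (fun k => ht _ ((phi_eq_zero_iff p h).1 h0 k)) s

instance (p : Ideal (MvPolynomial (Fin n) ℂ)) :
    Algebra.FiniteType ℂ (LaurentPolynomial (MvPolynomial (Fin n) ℂ ⧸ p)) := by
  have h1 : Algebra.FiniteType (MvPolynomial (Fin n) ℂ ⧸ p)
      (LaurentPolynomial (MvPolynomial (Fin n) ℂ ⧸ p)) := inferInstance
  exact Algebra.FiniteType.trans (S := MvPolynomial (Fin n) ℂ ⧸ p) inferInstance h1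

/-- Conversely. -/
theorem phi_of_eval {p : Ideal (MvPolynomial (Fin n) ℂ)} [p.IsPrime]
    {h : MvPolynomial (Fin 3) ℂ}
    (h0 : ∀ t : Fin n → ℂ, (∀ a ∈ p, eval t a = 0) → ∀ s : ℂˣ,
      eval (famValue F t s) h = 0) : phi F p h = 0 := by
  by_contra hc
  obtain ⟨χ, hχ⟩ := H96.exists_pt_ne (k := ℂ) (B := LaurentPolynomial (MvPolynomial (Fin n) ℂ ⧸ p))
    (b := phi F p h) hc
  obtain ⟨f, s, rfl⟩ := exists_evl χ
  rw [evl_phi] at hχ
  exact hχ (h0 _ (fun a ha => pt_mem f a ha) s)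

/-- The prime ideals over which the family is dominating. -/
def Good (J : Set (MvPolynomial (Fin n) ℂ))
    (F : Fin 3 → LaurentPolynomial (MvPolynomial (Fin n) ℂ)) (G : MvPolynomial (Fin 3) ℂ)
    (p : Ideal (MvPolynomial (Fin n) ℂ)) : Prop :=
  p.IsPrime ∧ J ⊆ p ∧ ∀ h, phi F p h = 0 → G ∣ h

/-- the point `t` lies on one of the minimal primes of `I` -/
theorem exists_min (I : Ideal (MvPolynomial (Fin n) ℂ)) (t : Fin n → ℂ)
    (ht : ∀ a ∈ I, eval t a = 0) : ∃ q ∈ I.minimalPrimes, ∀ a ∈ q, eval t a = 0 := by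
  have hpr : (RingHom.ker (eval t)).IsPrime := RingHom.ker_isPrime _
  obtain ⟨q, hq, hle⟩ := Ideal.exists_minimalPrimes_le (I := I) (J := RingHom.ker (eval t))
    (fun a ha => ht a ha)
  exact ⟨q, hq, fun a ha => hle ha⟩

theorem Hyp.exists_good (H : Hyp J F V G b) : ∃ p, Good J F G p := by
  by_contra hc
  push Not at hc
  set I := Ideal.span J with hI
  have hfin := Ideal.finite_minimalPrimes_of_isNoetherianRing _ I
  have hex : ∀ q : Ideal (MvPolynomial (Fin n) ℂ), ∃ h : MvPolynomial (Fin 3) ℂ,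
      q ∈ I.minimalPrimes → phi F q h = 0 ∧ ¬ G ∣ h := by
    intro q
    by_cases hq : q ∈ I.minimalPrimes
    · have h1 := hc q
      unfold Good at h1
      push Not at h1
      obtain ⟨h, h2, h3⟩ := h1 hq.1.1 (fun a ha => hq.1.2 (Ideal.subset_span ha))
      exact ⟨h, fun _ => ⟨h2, h3⟩⟩
    · exact ⟨0, fun h => absurd h hq⟩
  choose h hh using hex
  have hd : G ∣ ∏ q ∈ hfin.toFinset, h q := by
    apply H.dvd
    apply H.h2
    intro t ht s
    obtain ⟨q, hq, hqt⟩ := exists_min I t (by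
      intro a ha
      have : I ≤ RingHom.ker (eval t) := Ideal.span_le.2 (fun p hp => ht p hp)
      exact this ha)
    rw [map_prod]
    apply Finset.prod_eq_zero (hfin.mem_toFinset.2 hq)
    exact eval_of_phi (hh q hq).1 t hqt s
  obtain ⟨q, hq, hGq⟩ := H.dvd_prod _ _ hd
  exact (hh q (hfin.mem_toFinset.1 hq)).2 hGq

theorem Hyp.phi_G (H : Hyp J F V G b) {p : Ideal (MvPolynomial (Fin n) ℂ)}
    (hp : Good J F G p) : phi F p G = 0 := by
  have := hp.1
  apply phi_of_eval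
  intro t ht s
  exact ((H.hV _).1 ((H.h1 t (fun a ha => ht a (hp.2.1 ha))).1 s)).1

theorem Hyp.phi_iff (H : Hyp J F V G b) {p : Ideal (MvPolynomial (Fin n) ℂ)}
    (hp : Good J F G p) (h : MvPolynomial (Fin 3) ℂ) : phi F p h = 0 ↔ G ∣ h := by
  refine ⟨hp.2.2 h, ?_⟩
  rintro ⟨c, rfl⟩
  rw [map_mul, H.phi_G hp, zero_mul]

/-- the base locus is not met -/
theorem Hyp.bezout (H : Hyp J F V G b) {p : Ideal (MvPolynomial (Fin n) ℂ)}
    (hp : Good J F G p) : ∃ α : Fin 2 → LaurentPolynomial (MvPolynomial (Fin n) ℂ ⧸ p),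
      ∑ i, α i * phi F p (b i) = 1 := by
  have := hp.1
  have htop : Ideal.span {phi F p (b 0), phi F p (b 1)} = ⊤ := by
    by_contra hc
    obtain ⟨M, hM, hle⟩ := Ideal.exists_le_maximal _ hc
    obtain ⟨χ, hχ⟩ := H96.exists_pt (k := ℂ) (B := LaurentPolynomial (MvPolynomial (Fin n) ℂ ⧸ p)) M
    obtain ⟨f, s, rfl⟩ := exists_evl χ
    have h1 : ∀ i, eval (famValue F (pt f) s) (b i) = 0 := by
      intro i
      rw [← evl_phi, ← RingHom.mem_ker, hχ]
      apply hle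
      fin_cases i
      · exact Ideal.subset_span (Set.mem_insert _ _)
      · exact Ideal.subset_span (Set.mem_insert_of_mem _ rfl)
    obtain ⟨i, hi⟩ := ((H.hV _).1 ((H.h1 (pt f) (fun a ha => pt_mem f a (hp.2.1 ha))).1 s)).2
    exact hi (h1 i)
  rw [Ideal.eq_top_iff_one, Ideal.mem_span_pair] at htop
  obtain ⟨x, y, hxy⟩ := htop
  exact ⟨![x, y], by simpa [Fin.sum_univ_two] using hxy⟩

/-- one of the coordinates depends on the parameter of the multiplicative group -/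
theorem Hyp.nonconst (H : Hyp J F V G b) {p : Ideal (MvPolynomial (Fin n) ℂ)}
    (hp : Good J F G p) : ∃ (i : Fin 3) (k : ℤ), k ≠ 0 ∧ (phi F p (X i)).coeff k ≠ 0 := by
  have := hp.1
  by_contra hc
  push Not at hc
  have h1 : (1 : MvPolynomial (Fin n) ℂ ⧸ p) ≠ 0 := one_ne_zero
  obtain ⟨f, -⟩ := H96.exists_pt_ne (k := ℂ) h1
  obtain ⟨s, s', hs⟩ := (H.h1 (pt f) (fun a ha => pt_mem f a (hp.2.1 ha))).2
  apply hs
  funext i
  have h2 : ∀ s : ℂˣ, famValue F (pt f) s i = f ((phi F p (X i)).coeff 0) := by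
    intro s
    have h3 : phi F p (X i) = LaurentPolynomial.C ((phi F p (X i)).coeff 0) := by
      apply LaurentPolynomial.ext
      intro k
      rw [LaurentPolynomial.C_apply]
      split_ifs with hk
      · rw [hk]
      · exact hc i k hk
    have h4 := evl_phi (F := F) f s (X i)
    rw [eval_X] at h4
    rw [← h4, h3, evl_apply, LaurentPolynomial.eval₂_C]
    simp
  rw [h2, h2]

end

end H53
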