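import Pool.Agent.Helper53.LCY.Dom2

set_option autoImplicit false

/-!
Row DOMF of MP_f7e214_ag, part 3: hyperplane sections of the base.
-/

namespace H53

open MvPolynomial Pool.Agent.Helper48.KM

noncomputable section

variable {n : ℕ} {J : Set (MvPolynomial (Fin n) ℂ)}
  {F : Fin 3 → LaurentPolynomial (MvPolynomial (Fin n) ℂ)} {V : Set (Fin 3 → ℂ)}
  {G : MvPolynomial (Fin 3) ℂ} {b : Fin 2 → MvPolynomial (Fin 3) ℂ}

/-- two functions on the surface, algebraically independent -/
theorem Hyp.exists_basis (H : Hyp J F V G b) : ∃ a : Fin 2 → MvPolynomial (Fin 3) ℂ,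
    AlgebraicIndependent ℂ (fun i => Ideal.Quotient.mk (Ideal.span {G}) (a i)) ∧
    Algebra.IsAlgebraic (Algebra.adjoin ℂ
      (Set.range fun i => Ideal.Quotient.mk (Ideal.span {G}) (a i)))
      (MvPolynomial (Fin 3) ℂ ⧸ Ideal.span {G}) := by
  have := H.hG
  obtain ⟨ι, x, hx⟩ := exists_isTranscendenceBasis' ℂ (A := MvPolynomial (Fin 3) ℂ ⧸ Ideal.span {G})
  have h1 : Cardinal.mk ι = 2 := by rw [hx.cardinalMk_eq_trdeg, H.htr]
  have h2 : Cardinal.mk (Fin 2) = Cardinal.mk ι := by rw [h1]; simp
  obtain ⟨e⟩ := Cardinal.eq.1 h2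
  have hy := hx.comp_equiv e
  have h3 : ∀ i, ∃ a : MvPolynomial (Fin 3) ℂ, Ideal.Quotient.mk (Ideal.span {G}) a = (x ∘ e) i :=
    fun i => Ideal.Quotient.mk_surjective _
  choose a ha using h3
  have h4 : (fun i => Ideal.Quotient.mk (Ideal.span {G}) (a i)) = x ∘ e := funext ha
  refine ⟨a, ?_, ?_⟩
  · rw [h4]; exact hy.1
  · rw [h4]; exact hy.isAlgebraic

theorem Hyp.step (H : Hyp J F V G b) {p : Ideal (MvPolynomial (Fin n) ℂ)}
    (hp : Good J F G p) (a : Fin 2 → MvPolynomial (Fin 3) ℂ)
    (_hind : AlgebraicIndependent ℂ (fun i => Ideal.Quotient.mk (Ideal.span {G}) (a i)))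
    (halg : Algebra.IsAlgebraic (Algebra.adjoin ℂ
      (Set.range fun i => Ideal.Quotient.mk (Ideal.span {G}) (a i)))
      (MvPolynomial (Fin 3) ℂ ⧸ Ideal.span {G})) (j : Fin n)
    (hτ : AlgebraicIndependent ℂ
      ![LaurentPolynomial.C (Ideal.Quotient.mk p (X j)), phi F p (a 0), phi F p (a 1)]) :
    ∃ q, Good J F G q ∧ p < q := by
  have := hp.1
  have := H.hG
  set w : Fin 3 → LaurentPolynomial (MvPolynomial (Fin n) ℂ ⧸ p) :=
    ![LaurentPolynomial.C (Ideal.Quotient.mk p (X j)), phi F p (a 0), phi F p (a 1)] with hw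
  obtain ⟨h, hh0, hlift⟩ := H96.exists_lift (A := MvPolynomial (Fin 3) ℂ)
    (B := LaurentPolynomial (MvPolynomial (Fin n) ℂ ⧸ p)) (aeval w) hτ
  obtain ⟨x0, hx0⟩ : ∃ x0 : Fin 3 → ℂ, eval x0 h ≠ 0 := by
    by_contra hc
    push Not at hc
    exact hh0 (MvPolynomial.funext fun x => by rw [hc x, map_zero])
  set I : Ideal (MvPolynomial (Fin n) ℂ) := p ⊔ Ideal.span {X j - C (x0 0)} with hI
  have hfin := Ideal.finite_minimalPrimes_of_isNoetherianRing _ I
  have hgood : ∃ q ∈ I.minimalPrimes, Good J F G q := by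
    by_contra hc
    push Not at hc
    have hex : ∀ q : Ideal (MvPolynomial (Fin n) ℂ), ∃ h : MvPolynomial (Fin 3) ℂ,
        q ∈ I.minimalPrimes → phi F q h = 0 ∧ ¬ G ∣ h := by
      intro q
      by_cases hq : q ∈ I.minimalPrimes
      · have h1 := hc q hq
        unfold Good at h1
        push Not at h1
        obtain ⟨h, h2, h3⟩ := h1 hq.1.1 (fun a ha => hq.1.2 (le_sup_left (a := p) (hp.2.1 ha)))
        exact ⟨h, fun _ => ⟨h2, h3⟩⟩
      · exact ⟨0, fun h => absurd h hq⟩
    choose hq hhq using hex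
    have hnd : ¬ G ∣ ∏ q ∈ hfin.toFinset, hq q := by
      intro hd
      obtain ⟨q, hq1, hq2⟩ := H.dvd_prod _ _ hd
      exact (hhq q (hfin.mem_toFinset.1 hq1)).2 hq2
    set P := ∏ q ∈ hfin.toFinset, hq q with hP
    have hne : Ideal.Quotient.mk (Ideal.span {G}) P ≠ 0 := by
      rw [Ne, Ideal.Quotient.eq_zero_iff_mem, Ideal.mem_span_singleton]
      exact hnd
    obtain ⟨c, hc0, hcd⟩ := (halg.isAlgebraic (Ideal.Quotient.mk (Ideal.span {G}) P)).exists_nonzero_dvd
      (mem_nonZeroDivisors_of_ne_zero hne)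
    have hcm : (c : MvPolynomial (Fin 3) ℂ ⧸ Ideal.span {G}) ∈
        (aeval (R := ℂ) fun i => Ideal.Quotient.mk (Ideal.span {G}) (a i)).range := by
      rw [← Algebra.adjoin_range_eq_range_aeval]
      exact c.2
    obtain ⟨c', hc'⟩ := hcm
    have hc'0 : c' ≠ 0 := by
      rintro rfl
      apply hc0
      apply Subtype.ext
      rw [← hc']
      simp
    have h5 : (aeval fun i => Ideal.Quotient.mk (Ideal.span {G}) (a i)) c' =
        Ideal.Quotient.mk (Ideal.span {G}) (aeval a c') := by
      have h6 : (aeval (R := ℂ) fun i => Ideal.Quotient.mk (Ideal.span {G}) (a i)) =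
          (Ideal.Quotient.mkₐ ℂ (Ideal.span {G})).comp (aeval a) := by
        apply MvPolynomial.algHom_ext
        intro i
        rw [aeval_X, AlgHom.comp_apply, aeval_X]
        rfl
      rw [h6]
      rfl
    have hcd' : Ideal.Quotient.mk (Ideal.span {G}) P ∣
        Ideal.Quotient.mk (Ideal.span {G}) (aeval a c') := by
      rw [← h5]
      have h7 : algebraMap _ (MvPolynomial (Fin 3) ℂ ⧸ Ideal.span {G}) c = (c : _ ⧸ _) := rfl
      rw [h7, ← hc'] at hcd
      exact hcd
    obtain ⟨r0, hr0⟩ := hcd'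
    obtain ⟨r, rfl⟩ := Ideal.Quotient.mk_surjective r0
    rw [← map_mul, Ideal.Quotient.eq, Ideal.mem_span_singleton] at hr0
    obtain ⟨g', hg'⟩ := hr0
    have hclaim : ∀ α β : ℂ, eval ![x0 0, α, β] h ≠ 0 → eval ![α, β] c' = 0 := by
      intro α β hαβ
      obtain ⟨ψ, hψ⟩ := hlift (aeval ![x0 0, α, β]) hαβ
      obtain ⟨f, s, rfl⟩ := exists_evl ψ
      have hval : ∀ i, evl f s (w i) = ![x0 0, α, β] i := by
        intro i
        have h1 := congrArg (fun φ => φ (X i)) hψ
        simp only [AlgHom.comp_apply, aeval_X] at h1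
        exact h1
      have ht0 : pt f j = x0 0 := by
        have h1 := hval 0
        simp only [hw, Matrix.cons_val_zero, evl_apply, LaurentPolynomial.eval₂_C] at h1
        exact h1
      have ha0 : eval (famValue F (pt f) s) (a 0) = α := by
        have h1 := hval 1
        rw [← evl_phi]
        simpa [hw] using h1
      have ha1 : eval (famValue F (pt f) s) (a 1) = β := by
        have h1 := hval 2
        rw [← evl_phi]
        simpa [hw] using h1
      obtain ⟨q, hq1, hq2⟩ := exists_min I (pt f) (by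
        intro y hy
        have hle : I ≤ RingHom.ker (eval (pt f)) := by
          refine sup_le (fun y hy => pt_mem f y hy) ?_
          rw [Ideal.span_le, Set.singleton_subset_iff]
          change eval (pt f) (X j - C (x0 0)) = 0
          rw [map_sub, eval_X, eval_C, ht0, sub_self]
        exact hle hy)
      have hP0 : eval (famValue F (pt f) s) P = 0 := by
        rw [hP, map_prod]
        apply Finset.prod_eq_zero (hfin.mem_toFinset.2 hq1)
        exact eval_of_phi (hhq q hq1).1 _ hq2 s
      have hG0 : eval (famValue F (pt f) s) G = 0 :=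
        ((H.hV _).1 ((H.h1 (pt f) (fun a ha => pt_mem f a (hp.2.1 ha))).1 s)).1
      have h8 : eval (famValue F (pt f) s) (aeval a c') = 0 := by
        have h9 : aeval a c' = P * r + G * g' := by
          rw [← hg']; ring
        rw [h9, map_add, map_mul, map_mul, hP0, hG0]; ring
      have h10 : eval (famValue F (pt f) s) (aeval a c') = eval ![α, β] c' := by
        have h11 : (aeval (famValue F (pt f) s) : MvPolynomial (Fin 3) ℂ →ₐ[ℂ] ℂ).comp (aeval a) =
            aeval ![α, β] := by
          apply MvPolynomial.algHom_ext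
          intro i
          rw [AlgHom.comp_apply, aeval_X, aeval_X]
          fin_cases i
          · exact ha0
          · exact ha1
        exact congrArg (fun φ => φ c') h11
      rw [← h10, h8]
    set hs : MvPolynomial (Fin 2) ℂ := aeval ![C (x0 0), X 0, X 1] h with hhs
    have hs_eval : ∀ y : Fin 2 → ℂ, eval y hs = eval ![x0 0, y 0, y 1] h := by
      intro y
      have h11 : (aeval y : MvPolynomial (Fin 2) ℂ →ₐ[ℂ] ℂ).comp
          (aeval ![C (x0 0), X 0, X 1]) = aeval ![x0 0, y 0, y 1] := by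
        apply MvPolynomial.algHom_ext
        intro i
        rw [AlgHom.comp_apply, aeval_X, aeval_X]
        fin_cases i
        · simp
        · simp
        · simp
      exact congrArg (fun φ => φ h) h11
    have hmul : hs * c' = 0 := by
      apply MvPolynomial.funext
      intro y
      rw [map_mul, map_zero]
      by_cases h12 : eval y hs = 0
      · rw [h12, zero_mul]
      · rw [hs_eval] at h12
        have h13 := hclaim (y 0) (y 1) h12
        have h14 : ![y 0, y 1] = y := by
          funext i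
          fin_cases i <;> rfl
        rw [h14] at h13
        rw [h13, mul_zero]
    rcases mul_eq_zero.1 hmul with h15 | h15
    · apply hx0
      have h16 := hs_eval ![x0 1, x0 2]
      rw [h15, map_zero] at h16
      have h17 : ![x0 0, (![x0 1, x0 2] : Fin 2 → ℂ) 0, (![x0 1, x0 2] : Fin 2 → ℂ) 1] = x0 := by
        funext i
        fin_cases i <;> rfl
      rw [h17] at h16
      exact h16.symm
    · exact hc'0 h15
  obtain ⟨q, hq, hqg⟩ := hgood
  have hpq : p ≤ q := le_sup_left.trans hq.1.2
  refine ⟨q, hqg, lt_of_le_of_ne hpq ?_⟩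
  rintro rfl
  have h1 : X j - C (x0 0) ∈ p := hq.1.2 (le_sup_right (a := p) (Ideal.subset_span rfl))
  have h2 := hτ.transcendental 0
  apply h2
  rw [← Ideal.Quotient.eq_zero_iff_mem, map_sub, sub_eq_zero] at h1
  have h3 : w 0 = algebraMap ℂ _ (x0 0) := by
    rw [hw]
    simp only [Matrix.cons_val_zero]
    rw [h1]
    rfl
  rw [h3]
  exact isAlgebraic_algebraMap _

end

end H53
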