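import Pool.Agent.Helper53.LCY.Dom4a

set_option autoImplicit false

namespace H53

open MvPolynomial Pool.Agent.Helper48.KM

noncomputable section

variable {n : ℕ} {J : Set (MvPolynomial (Fin n) ℂ)}
  {F : Fin 3 → LaurentPolynomial (MvPolynomial (Fin n) ℂ)} {V : Set (Fin 3 → ℂ)}
  {G : MvPolynomial (Fin 3) ℂ} {b : Fin 2 → MvPolynomial (Fin 3) ℂ}

/-- the map from the coordinate ring of the surface -/
def lft (H : Hyp J F V G b) {p : Ideal (MvPolynomial (Fin n) ℂ)} (hp : Good J F G p) :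
    (MvPolynomial (Fin 3) ℂ ⧸ Ideal.span {G}) →ₐ[ℂ]
      LaurentPolynomial (MvPolynomial (Fin n) ℂ ⧸ p) :=
  Ideal.Quotient.liftₐ (Ideal.span {G}) (phi F p)
    (fun x hx => (H.phi_iff hp x).2 (Ideal.mem_span_singleton.1 hx))

theorem lft_mk (H : Hyp J F V G b) {p : Ideal (MvPolynomial (Fin n) ℂ)} (hp : Good J F G p)
    (x : MvPolynomial (Fin 3) ℂ) : lft H hp (Ideal.Quotient.mk _ x) = phi F p x := rfl

theorem lft_injective (H : Hyp J F V G b) {p : Ideal (MvPolynomial (Fin n) ℂ)}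
    (hp : Good J F G p) : Function.Injective (lft H hp) := by
  rw [injective_iff_map_eq_zero]
  intro x hx
  obtain ⟨y, rfl⟩ := Ideal.Quotient.mk_surjective x
  rw [lft_mk, H.phi_iff hp] at hx
  rw [Ideal.Quotient.eq_zero_iff_mem, Ideal.mem_span_singleton]
  exact hx

theorem option_fin (L : Type) (x : L) (u : Fin 2 → L) :
    (fun o : Option (Fin 2) => o.elim x u) ∘ (finSuccEquiv 2) = ![x, u 0, u 1] := by
  funext i
  fin_cases i <;> rfl

theorem adjoin_quot {m : ℕ} (p : Ideal (MvPolynomial (Fin m) ℂ)) :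
    Algebra.adjoin ℂ (Set.range fun j => (Ideal.Quotient.mk p (X j))) = ⊤ := by
  rw [eq_top_iff]
  intro d _
  obtain ⟨P, rfl⟩ := Ideal.Quotient.mk_surjective d
  induction P using MvPolynomial.induction_on with
  | C c => exact (Algebra.adjoin ℂ _).algebraMap_mem c
  | add P Q hP hQ => rw [map_add]; exact add_mem (hP trivial) (hQ trivial)
  | mul_X P j hP => rw [map_mul]; exact mul_mem (hP trivial) (Algebra.subset_adjoin ⟨j, rfl⟩)

theorem map_ind {A B : Type} [CommRing A] [CommRing B] [Algebra ℂ A] [Algebra ℂ B]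
    (f : A →ₐ[ℂ] B) (hf : Function.Injective f) {ι : Type} (x : ι → A) :
    AlgebraicIndependent ℂ (f ∘ x) ↔ AlgebraicIndependent ℂ x :=
  f.algebraicIndependent_iff hf

theorem not_ind {A : Type} [CommRing A] [IsDomain A] [Algebra ℂ A] (x : Fin 2 → A)
    (hx : AlgebraicIndependent ℂ x) (h : Algebra.IsAlgebraic (Algebra.adjoin ℂ (Set.range x)) A)
    (y : A) : ¬ AlgebraicIndependent ℂ (fun o : Option (Fin 2) => o.elim y x) := by
  rw [hx.option_iff_transcendental]
  exact fun h1 => h1 (h.isAlgebraic y)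

theorem Hyp.hui (H : Hyp J F V G b) {p : Ideal (MvPolynomial (Fin n) ℂ)}
    (hp : Good J F G p) (a : Fin 2 → MvPolynomial (Fin 3) ℂ)
    (hind : AlgebraicIndependent ℂ (fun i => Ideal.Quotient.mk (Ideal.span {G}) (a i))) :
    AlgebraicIndependent ℂ (fun i => phi F p (a i)) := by
  have h1 := (map_ind (A := MvPolynomial (Fin 3) ℂ ⧸ Ideal.span {G})
    (B := LaurentPolynomial (MvPolynomial (Fin n) ℂ ⧸ p)) (lft H hp) (lft_injective H hp) _).2 hind
  have h2 : (lft H hp) ∘ (fun i => Ideal.Quotient.mk (Ideal.span {G}) (a i)) =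
      (fun i => phi F p (a i)) := by
    funext i
    exact lft_mk H hp (a i)
  rw [← h2]
  exact h1

theorem aux_ni (I : Ideal (MvPolynomial (Fin 3) ℂ)) (hI : I.IsPrime)
    (a : Fin 2 → MvPolynomial (Fin 3) ℂ)
    (hind : AlgebraicIndependent ℂ (fun i => Ideal.Quotient.mk I (a i)))
    (halg : Algebra.IsAlgebraic (Algebra.adjoin ℂ
      (Set.range fun i => Ideal.Quotient.mk I (a i)))
      (MvPolynomial (Fin 3) ℂ ⧸ I)) (y : MvPolynomial (Fin 3) ℂ ⧸ I) :
    ¬ AlgebraicIndependent ℂ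
      (fun o : Option (Fin 2) => o.elim y (fun i => Ideal.Quotient.mk I (a i))) :=
  not_ind _ hind halg _

theorem aux_eq (H : Hyp J F V G b) {p : Ideal (MvPolynomial (Fin n) ℂ)}
    (hp : Good J F G p) (a : Fin 2 → MvPolynomial (Fin 3) ℂ) (i : Fin 3) :
    (fun o : Option (Fin 2) => o.elim (phi F p (X i)) (fun i => phi F p (a i))) =
      lft H hp ∘ (fun o : Option (Fin 2) => o.elim
        (Ideal.Quotient.mk (Ideal.span {G}) (X i))
        (fun i => Ideal.Quotient.mk (Ideal.span {G}) (a i))) := by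
  funext o
  cases o with
  | none => exact (lft_mk H hp _).symm
  | some i => exact (lft_mk H hp _).symm

theorem aux_ind' (H : Hyp J F V G b) {p : Ideal (MvPolynomial (Fin n) ℂ)}
    (hp : Good J F G p) (x : Option (Fin 2) → MvPolynomial (Fin 3) ℂ ⧸ Ideal.span {G})
    (h : AlgebraicIndependent ℂ (lft H hp ∘ x)) : AlgebraicIndependent ℂ x := by
  have h1 := (map_ind (A := MvPolynomial (Fin 3) ℂ ⧸ Ideal.span {G})
    (B := LaurentPolynomial (MvPolynomial (Fin n) ℂ ⧸ p)) (lft H hp) (lft_injective H hp) x)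
  exact h1.mp h

theorem aux_ind (H : Hyp J F V G b) {p : Ideal (MvPolynomial (Fin n) ℂ)}
    (hp : Good J F G p) (a : Fin 2 → MvPolynomial (Fin 3) ℂ) (i : Fin 3)
    (h : AlgebraicIndependent ℂ
      (fun o : Option (Fin 2) => o.elim (phi F p (X i)) (fun i => phi F p (a i)))) :
    AlgebraicIndependent ℂ
      (fun o : Option (Fin 2) => o.elim
        (Ideal.Quotient.mk (Ideal.span {G}) (X i))
        (fun i => Ideal.Quotient.mk (Ideal.span {G}) (a i))) := by
  rw [aux_eq H hp a i] at h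
  exact aux_ind' H hp _ h

theorem Hyp.not_indep (H : Hyp J F V G b) {p : Ideal (MvPolynomial (Fin n) ℂ)}
    (hp : Good J F G p) (a : Fin 2 → MvPolynomial (Fin 3) ℂ)
    (hind : AlgebraicIndependent ℂ (fun i => Ideal.Quotient.mk (Ideal.span {G}) (a i)))
    (halg : Algebra.IsAlgebraic (Algebra.adjoin ℂ
      (Set.range fun i => Ideal.Quotient.mk (Ideal.span {G}) (a i)))
      (MvPolynomial (Fin 3) ℂ ⧸ Ideal.span {G})) (i : Fin 3) :
    ¬ AlgebraicIndependent ℂ
      (fun o : Option (Fin 2) => o.elim (phi F p (X i)) (fun i => phi F p (a i))) := by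
  intro h1
  exact aux_ni (Ideal.span {G}) H.hG a hind halg _ (aux_ind H hp a i h1)

theorem Hyp.trdeg_eq (H : Hyp J F V G b) {p : Ideal (MvPolynomial (Fin n) ℂ)}
    (hp : Good J F G p) (hmax : ∀ q, Good J F G q → ¬ p < q) :
    Algebra.trdeg ℂ (MvPolynomial (Fin n) ℂ ⧸ p) = 1 := by
  have := hp.1
  obtain ⟨a, hind, halg⟩ := H.exists_basis
  obtain ⟨i, k, hk, hik⟩ := H.nonconst hp
  refine trdeg_param (fun j => Ideal.Quotient.mk p (X j)) (adjoin_quot p)
    (fun i => phi F p (a i)) (H.hui hp a hind) ?_ (phi F p (X i))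
    (H.not_indep hp a hind halg i) k hk hik
  intro j h1
  have h2 := h1.comp (finSuccEquiv 2) (finSuccEquiv 2).injective
  rw [option_fin] at h2
  obtain ⟨q, hq, hpq⟩ := H.step hp a hind halg j h2
  exact hmax q hq hpq

end

end H53
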