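import Pool.Agent.Helper53.LCY.Dom3

set_option autoImplicit false

/-!
Row DOMF of MP_f7e214_ag, part 4: the transcendence degree and the theorem.
-/

namespace H53

open MvPolynomial Pool.Agent.Helper48.KM

noncomputable section

variable {n : ℕ} {J : Set (MvPolynomial (Fin n) ℂ)}
  {F : Fin 3 → LaurentPolynomial (MvPolynomial (Fin n) ℂ)} {V : Set (Fin 3 → ℂ)}
  {G : MvPolynomial (Fin 3) ℂ} {b : Fin 2 → MvPolynomial (Fin 3) ℂ}

/-- The parameter is algebraic over every algebraically closed subring that contains the
coefficients and a Laurent polynomial that is not constant. -/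
theorem isAlgebraic_T {D : Type} [CommRing D] [IsDomain D] (A : Type) [CommRing A] [IsDomain A]
    [Algebra A (LaurentPolynomial D)]
    (hD : ∀ d : D, IsAlgebraic A (LaurentPolynomial.C d : LaurentPolynomial D))
    (g : LaurentPolynomial D) (hg : IsAlgebraic A g) (k : ℤ) (hk : k ≠ 0)
    (hgk : g.coeff k ≠ 0) : IsAlgebraic A (LaurentPolynomial.T 1 : LaurentPolynomial D) := by
  set Lc := Subalgebra.algebraicClosure A (LaurentPolynomial D) with hLc
  have hLalg : Algebra.IsAlgebraic A Lc := inferInstance
  suffices h : IsAlgebraic Lc (LaurentPolynomial.T 1 : LaurentPolynomial D) from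
    h.restrictScalars A
  let c : D →+* Lc := (LaurentPolynomial.C : D →+* LaurentPolynomial D).codRestrict
    Lc.toSubring (fun d => hD d)
  have hc : ∀ d, ((c d : Lc) : LaurentPolynomial D) = LaurentPolynomial.C d := fun d => rfl
  obtain ⟨m, Q, hQ⟩ := g.exists_T_pow
  have hgL : g ∈ Lc := hg
  set gL : Lc := ⟨g, hgL⟩ with hgLdef
  refine ⟨Q.map c - Polynomial.C gL * Polynomial.X ^ m, ?_, ?_⟩
  · intro h0
    have h1 : ∀ j, j ≠ m → Q.coeff j = 0 := by
      intro j hj
      have h2 := congrArg (fun P => Polynomial.coeff P j) h0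
      simp only [Polynomial.coeff_sub, Polynomial.coeff_map, Polynomial.coeff_C_mul,
        Polynomial.coeff_X_pow, if_neg hj, mul_zero, sub_zero, Polynomial.coeff_zero] at h2
      have h3 : LaurentPolynomial.C (Q.coeff j) = (0 : LaurentPolynomial D) := by
        rw [← hc, h2]; rfl
      have h4 := congrArg (fun P : LaurentPolynomial D => P.coeff 0) h3
      simpa using h4
    have h5 : Q = Polynomial.C (Q.coeff m) * Polynomial.X ^ m := by
      ext j
      rw [Polynomial.coeff_C_mul, Polynomial.coeff_X_pow]
      by_cases hj : j = m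
      · rw [if_pos hj, hj, mul_one]
      · rw [if_neg hj, mul_zero, h1 j hj]
    have h6 : LaurentPolynomial.C (Q.coeff m) * LaurentPolynomial.T (m : ℤ) =
        g * LaurentPolynomial.T (m : ℤ) := by
      rw [← hQ]
      conv_rhs => rw [h5]
      rw [Polynomial.toLaurent_C_mul_X_pow]
    have h7 : LaurentPolynomial.C (Q.coeff m) = g :=
      (LaurentPolynomial.isUnit_T (m : ℤ)).mul_right_cancel h6
    apply hgk
    rw [← h7, LaurentPolynomial.C_apply, if_neg hk]
  · have h8 : (algebraMap Lc (LaurentPolynomial D)).comp c = LaurentPolynomial.C := by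
      ext1 d
      rfl
    have h9 : ∀ R : Polynomial D, Polynomial.eval₂ LaurentPolynomial.C (LaurentPolynomial.T 1) R =
        Polynomial.toLaurent R := by
      intro R
      induction R using Polynomial.induction_on' with
      | add p q hp hq => rw [Polynomial.eval₂_add, hp, hq, map_add]
      | monomial m a =>
        rw [Polynomial.eval₂_monomial, ← Polynomial.C_mul_X_pow_eq_monomial,
          Polynomial.toLaurent_C_mul_X_pow, LaurentPolynomial.T_pow, mul_one]
    rw [map_sub, map_mul, map_pow, Polynomial.aeval_X, Polynomial.aeval_C, Polynomial.aeval_def,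
      Polynomial.eval₂_map, h8, h9, hQ, LaurentPolynomial.T_pow, mul_one]
    exact sub_self _

/-- Laurent polynomials have transcendence degree one over the coefficients. -/
theorem trdeg_laurent (D : Type) [CommRing D] [IsDomain D] :
    Algebra.trdeg D (LaurentPolynomial D) = 1 := by
  have h0 : FaithfulSMul (Polynomial D) (LaurentPolynomial D) :=
    (faithfulSMul_iff_algebraMap_injective _ _).2 Polynomial.toLaurent_injective
  have h3 : IsScalarTower D (Polynomial D) (LaurentPolynomial D) :=
    IsScalarTower.of_algebraMap_eq fun d => (Polynomial.toLaurent_C d).symm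
  have h1 := trdeg_add_eq D (Polynomial D) (A := LaurentPolynomial D)
  rw [← h1, Polynomial.trdeg_of_isDomain]
  have h2 : Algebra.IsAlgebraic (Polynomial D) (LaurentPolynomial D) :=
    IsLocalization.isAlgebraic (LaurentPolynomial D)
      (Submonoid.powers (Polynomial.X : Polynomial D))
  rw [trdeg_eq_zero, add_zero]

/-- The transcendence degree of the parameter domain, from two algebraically independent
functions over which everything is algebraic. -/
theorem trdeg_param {D : Type} [CommRing D] [IsDomain D] [Algebra ℂ D] {m : ℕ}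
    (y : Fin m → D) (hy : Algebra.adjoin ℂ (Set.range y) = ⊤)
    (u : Fin 2 → LaurentPolynomial D) (hui : AlgebraicIndependent ℂ u)
    (hX : ∀ j, ¬ AlgebraicIndependent ℂ
      (fun o : Option (Fin 2) => o.elim (LaurentPolynomial.C (y j) : LaurentPolynomial D) u))
    (x : LaurentPolynomial D)
    (hx : ¬ AlgebraicIndependent ℂ (fun o : Option (Fin 2) => o.elim x u))
    (k : ℤ) (hk : k ≠ 0) (hik : x.coeff k ≠ 0) : Algebra.trdeg ℂ D = 1 := by
  have hX' : ∀ j, IsAlgebraic (Algebra.adjoin ℂ (Set.range u))
      (LaurentPolynomial.C (y j) : LaurentPolynomial D) := by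
    intro j
    by_contra htr
    exact hX j ((hui.option_iff_transcendental _).2 htr)
  have hx' : IsAlgebraic (Algebra.adjoin ℂ (Set.range u)) x := by
    by_contra htr
    exact hx ((hui.option_iff_transcendental _).2 htr)
  have hDalg : ∀ d : D, IsAlgebraic (Algebra.adjoin ℂ (Set.range u))
      (LaurentPolynomial.C d : LaurentPolynomial D) := by
    intro d
    have hd : d ∈ Algebra.adjoin ℂ (Set.range y) := by rw [hy]; trivial
    induction hd using Algebra.adjoin_induction with
    | mem z hz =>
      obtain ⟨j, rfl⟩ := hz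
      exact hX' j
    | algebraMap c =>
      have h1 : (LaurentPolynomial.C (algebraMap ℂ D c) : LaurentPolynomial D) =
          algebraMap (Algebra.adjoin ℂ (Set.range u)) (LaurentPolynomial D)
            (algebraMap ℂ (Algebra.adjoin ℂ (Set.range u)) c) := rfl
      rw [h1]
      exact isAlgebraic_algebraMap _
    | add P Q _ _ hP hQ => rw [map_add]; exact hP.add hQ
    | mul P Q _ _ hP hQ => rw [map_mul]; exact hP.mul hQ
  have hT : IsAlgebraic (Algebra.adjoin ℂ (Set.range u))
      (LaurentPolynomial.T 1 : LaurentPolynomial D) :=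
    isAlgebraic_T (Algebra.adjoin ℂ (Set.range u)) hDalg _ hx' k hk hik
  have hT' : IsAlgebraic (Algebra.adjoin ℂ (Set.range u))
      (LaurentPolynomial.T (-1) : LaurentPolynomial D) := by
    refine IsAlgebraic.of_mul (y := LaurentPolynomial.T 1) ?_ hT ?_
    · exact (LaurentPolynomial.isUnit_T 1).mem_nonZeroDivisors
    · rw [← LaurentPolynomial.T_add, add_neg_cancel, LaurentPolynomial.T_zero]
      exact isAlgebraic_one
  have hTm : ∀ m : ℤ, IsAlgebraic (Algebra.adjoin ℂ (Set.range u))
      (LaurentPolynomial.T m : LaurentPolynomial D) := by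
    intro m
    rcases Int.eq_nat_or_neg m with ⟨l, rfl | rfl⟩
    · have h1 := hT.pow l
      rwa [LaurentPolynomial.T_pow, mul_one] at h1
    · have h1 := hT'.pow l
      rwa [LaurentPolynomial.T_pow, mul_neg_one] at h1
  have hall : Algebra.IsAlgebraic (Algebra.adjoin ℂ (Set.range u)) (LaurentPolynomial D) := by
    constructor
    intro P
    induction P using LaurentPolynomial.induction_on' with
    | add P Q hP hQ => exact hP.add hQ
    | C_mul_T m d => exact (hDalg d).mul (hTm m)
  have hbas : IsTranscendenceBasis ℂ u := hui.isTranscendenceBasis_iff_isAlgebraic.2 hall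
  have h2 : Algebra.trdeg ℂ (LaurentPolynomial D) = 2 := by
    rw [← hbas.cardinalMk_eq_trdeg]; simp
  have hf : FaithfulSMul D (LaurentPolynomial D) :=
    (faithfulSMul_iff_algebraMap_injective _ _).2 (by
      intro x y hxy
      have h4 := congrArg (fun P : LaurentPolynomial D => P.coeff 0) hxy
      simpa using h4)
  have h3 := trdeg_add_eq ℂ D (A := LaurentPolynomial D)
  rw [trdeg_laurent, h2] at h3
  have h4 : (2 : Cardinal) = 1 + 1 := by norm_num
  rw [h4] at h3
  exact Cardinal.add_one_inj.1 h3

end

end H53
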